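import Mathlib

set_option autoImplicit false

namespace Pool.Agent.Results.MP_d11917_an.Strip

/-- grid, position, direction -/
abbrev Cfg (m : ℕ) := (ℤ × ℤ → Fin (m + 1)) × (ℤ × ℤ) × (ℤ × ℤ)

/-- one step of the ant with rule word `w` of length `m + 1` (`true` is `R`, `false` is `L`) -/
def step {m : ℕ} (w : Fin (m + 1) → Bool) (C : Cfg m) : Cfg m :=
  let q := if w (C.1 C.2.1) then (C.2.2.2, -C.2.2.1) else (-C.2.2.2, C.2.2.1)
  (Function.update C.1 C.2.1 (C.1 C.2.1 + 1), C.2.1 + q, q)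

/-- the cells visited infinitely often -/
def Rec {m : ℕ} (w : Fin (m + 1) → Bool) (C : Cfg m) : Set (ℤ × ℤ) :=
  {x | {t : ℕ | ((step w)^[t] C).2.1 = x}.Infinite}

def T : Cfg 1 → Cfg 1 := step fun k => k.val == 1

def Run (C : Cfg 1) (n : ℕ) (S : ℤ × ℤ → Prop) (C' : Cfg 1) : Prop :=
  T^[n] C = C' ∧ ∀ t < n, S (T^[t] C).2.1

theorem Run.trans {C C' C'' : Cfg 1} {n n' : ℕ} {S : ℤ × ℤ → Prop} (h : Run C n S C')
    (h' : Run C' n' S C'') : Run C (n' + n) S C'' := by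
  refine ⟨by rw [Function.iterate_add_apply, h.1, h'.1], fun t ht => ?_⟩
  by_cases g : t < n
  · exact h.2 t g
  · obtain ⟨u, rfl⟩ : ∃ u, t = u + n := ⟨t - n, by omega⟩
    rw [Function.iterate_add_apply, h.1]
    exact h'.2 u (by omega)

theorem Run.mono {C C' : Cfg 1} {n : ℕ} {S S' : ℤ × ℤ → Prop} (h : Run C n S C')
    (hs : ∀ x, S x → S' x) : Run C n S' C' := ⟨h.1, fun t ht => hs _ (h.2 t ht)⟩

theorem Run.frame {C C' : Cfg 1} {n : ℕ} {S : ℤ × ℤ → Prop} (h : Run C n S C') (x : ℤ × ℤ)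
    (hx : ¬ S x) : C'.1 x = C.1 x := by
  obtain ⟨rfl, h⟩ := h
  induction n with
  | zero => rfl
  | succ n ih =>
    rw [Function.iterate_succ_apply', ← ih fun t ht => h t (by omega)]
    exact Function.update_of_ne (fun e => hx (by rw [e]; exact h n (by omega))) _ _

def Sim (D : ℤ × ℤ → Prop) (v : ℤ × ℤ) (C C' : Cfg 1) : Prop :=
  C.2.1 = C'.2.1 + v ∧ C.2.2 = C'.2.2 ∧ ∀ x, D x → C.1 (x + v) = C'.1 x

theorem Sim.step {D : ℤ × ℤ → Prop} {v : ℤ × ℤ} {C C' : Cfg 1} (h : Sim D v C C') (hD : D C'.2.1) :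
    Sim D v (T C) (T C') := by
  obtain ⟨c, p, q⟩ := C
  obtain ⟨c', p', q'⟩ := C'
  obtain ⟨rfl, rfl, h⟩ : p = p' + v ∧ q = q' ∧ ∀ x, D x → c (x + v) = c' x := h
  simp only [T, Strip.step, h p' hD, Sim]
  refine ⟨add_right_comm _ _ _, trivial, fun x hx => ?_⟩
  by_cases e : x = p'
  · rw [e, Function.update_self, Function.update_self]
  · rw [Function.update_of_ne (by simpa using e), Function.update_of_ne e, h x hx]

theorem lift (D : ℤ × ℤ → Prop) (v : ℤ × ℤ) (C C' : Cfg 1) (h : Sim D v C C') (n : ℕ)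
    (hD : ∀ t < n, D (T^[t] C').2.1) :
    Run C n (fun x => D (x - v)) (T^[n] C) ∧ Sim D v (T^[n] C) (T^[n] C') := by
  have k : ∀ t ≤ n, Sim D v (T^[t] C) (T^[t] C') := by
    intro t ht
    induction t with
    | zero => exact h
    | succ t ih =>
      rw [Function.iterate_succ_apply', Function.iterate_succ_apply']
      exact (ih (by omega)).step (hD t (by omega))
  exact ⟨⟨rfl, fun t ht => by
    simp only [(k t ht.le).1, add_sub_cancel_right]; exact hD t ht⟩, k n le_rfl⟩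

def Box (a b c : ℤ) (x : ℤ × ℤ) : Prop := 0 ≤ x.1 ∧ x.1 ≤ a ∧ b ≤ x.2 ∧ x.2 ≤ c

instance (a b c : ℤ) : DecidablePred (Box a b c) := fun x =>
  inferInstanceAs (Decidable (0 ≤ x.1 ∧ x.1 ≤ a ∧ b ≤ x.2 ∧ x.2 ≤ c))

def par (x : ℤ) : Fin 2 := if x % 2 = 0 then 0 else 1

def B (p : ℤ × ℤ) : Fin 2 := if p.2 = 2 then 0 else if p.2 = -1 then par (p.1 + 1) else par p.1

def F (p : ℤ × ℤ) : Fin 2 :=
  if p ∈ [((0 : ℤ), (-2 : ℤ)), (0, 0), (0, 2), (1, -1), (1, 2), (2, 0), (2, 1)] then 1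
  else if p ∈ [((0 : ℤ), (-1 : ℤ)), (1, 0), (1, 1)] then 0 else B p

theorem F_far (x y : ℤ) (h : 3 ≤ x) : F (x + 2, y) = F (x, y) := by
  have k : ∀ x, 3 ≤ x → F (x, y) = B (x, y) := by
    intro x h
    rw [F, if_neg (by simp; omega), if_neg (by simp; omega)]
  rw [k _ h, k _ (by omega)]
  simp only [B, par]
  rw [show (x + 2 + 1) % 2 = (x + 1) % 2 by omega, show (x + 2) % 2 = x % 2 by omega]

def rd (p : ℤ × ℤ) : Fin 2 := if p.2 = 0 then 0 else 1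

def fl (p : ℤ × ℤ) : Fin 2 := if p.2 = 0 then 1 else 0

def St (k : ℕ) (s : ℤ) (c : ℤ × ℤ → Fin 2) : Prop :=
  (∀ j, s ≤ j → j < s + 2 * k → c (j, 0) = 0 ∧ c (j, 1) = 1) ∧
    ∀ x y, 0 ≤ x → -2 ≤ y → y ≤ 2 → c (x + (s + 2 * k), y) = F (x, y)

theorem exc (k : ℕ) : ∀ (s : ℤ) (c : ℤ × ℤ → Fin 2), St k s c → ∃ n c', 0 < n ∧
    Run (c, (s, 0), (1, 0)) n (fun x => s ≤ x.1 ∧ -2 ≤ x.2 ∧ x.2 ≤ 2) (c', (s - 1, 1), (-1, 0)) ∧
    St (k + 1) s c' := by
  induction k with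
  | zero =>
    intro s c h
    obtain ⟨r, h1, h2, h3⟩ := lift (Box 4 (-2) 2) (s, 0) (c, (s, 0), (1, 0)) (F, (0, 0), (1, 0))
      ⟨by simp, rfl, fun ⟨x, y⟩ hx => by simpa using h.2 x y hx.1 hx.2.2.1 hx.2.2.2⟩ 26
      (by decide +kernel)
    have e : (T^[26] (F, (0, 0), (1, 0))).2 = ((-1, 1), (-1, 0)) := by decide +kernel
    have e1 : ∀ x : Fin 2, (T^[26] (F, (0, 0), (1, 0))).1 (x.val, 0) = 0 ∧
        (T^[26] (F, (0, 0), (1, 0))).1 (x.val, 1) = 1 := by decide +kernel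
    have e2 : ∀ (x : Fin 3) (y : Fin 5), (T^[26] (F, (0, 0), (1, 0))).1 (x.val + 2, y.val - 2) =
        F (x.val, y.val - 2) := by decide +kernel
    rw [e] at h1 h2
    have fr := r.frame
    generalize T^[26] (c, (s, 0), (1, 0)) = C at *
    obtain ⟨c', p, q⟩ := C
    obtain rfl : p = (s - 1, 1) := h1.trans (by simp; ring)
    obtain rfl : q = (-1, 0) := h2
    refine ⟨26, c', by norm_num, r.mono fun x hx => ?_, fun j h4 h5 => ?_, fun x y h4 h5 h6 => ?_⟩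
    · simp only [Box, Prod.fst_sub, Prod.snd_sub] at hx; omega
    · obtain ⟨i, rfl⟩ : ∃ i : Fin 2, j = i.val + s := ⟨⟨(j - s).toNat, by omega⟩, by simp; omega⟩
      have a0 := h3 (i.val, 0) (by simp only [Box]; omega)
      have a1 := h3 (i.val, 1) (by simp only [Box]; omega)
      rw [(e1 i).1] at a0
      rw [(e1 i).2] at a1
      exact ⟨by simpa using a0, by simpa using a1⟩
    · by_cases g : 3 ≤ x
      · rw [← F_far x y g, ← h.2 (x + 2) y (by omega) h5 h6,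
          show x + 2 + (s + 2 * (0 : ℕ)) = x + (s + 2 * (0 + 1 : ℕ)) by push_cast; ring]
        exact fr _ (by simp only [Box, Prod.fst_sub, Prod.snd_sub]; omega)
      · obtain ⟨i, rfl⟩ : ∃ i : Fin 3, x = i.val := ⟨⟨x.toNat, by omega⟩, by simp; omega⟩
        obtain ⟨l, rfl⟩ : ∃ l : Fin 5, y = l.val - 2 := ⟨⟨(y + 2).toNat, by omega⟩, by simp; omega⟩
        rw [← e2, ← h3 _ (by simp only [Box]; omega)]
        congr 1
        simp; ring
  | succ k ih =>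
    intro s c h
    have two : ∀ (c g : ℤ × ℤ → Fin 2), (∀ i j : Fin 2, c (i.val + s, j.val) = g (i.val, j.val)) →
        ∀ x, Box 1 0 1 x → c (x + (s, 0)) = g x := by
      rintro c g h ⟨x, y⟩ hx
      simp only [Box] at hx
      obtain ⟨i, rfl⟩ : ∃ i : Fin 2, x = i.val := ⟨⟨x.toNat, by omega⟩, by simp; omega⟩
      obtain ⟨l, rfl⟩ : ∃ l : Fin 2, y = l.val := ⟨⟨y.toNat, by omega⟩, by simp; omega⟩
      simpa using h i l
    obtain ⟨r, h1, h2, h3⟩ := lift (Box 1 0 1) (s, 0) (c, (s, 0), (1, 0)) (rd, (0, 0), (1, 0))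
      ⟨by simp, rfl, two c rd fun i j => by
        have := h.1 (i.val + s) (by omega) (by omega)
        fin_cases j
        exacts [this.1, this.2]⟩ 4 (by decide +kernel)
    have e : (T^[4] (rd, (0, 0), (1, 0))).2 = ((2, 0), (1, 0)) := by decide +kernel
    have e1 : ∀ i j : Fin 2, (T^[4] (rd, (0, 0), (1, 0))).1 (i.val, j.val) = fl (i.val, j.val) := by
      decide +kernel
    rw [e] at h1 h2
    have fr := r.frame
    generalize T^[4] (c, (s, 0), (1, 0)) = C at *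
    obtain ⟨c1, p, q⟩ := C
    obtain rfl : p = (s + 2, 0) := h1.trans (by simp; ring)
    obtain rfl : q = (1, 0) := h2
    have fr1 : ∀ x y, s + 2 ≤ x → c1 (x, y) = c (x, y) := fun x y g =>
      fr _ (by simp only [Box, Prod.fst_sub, Prod.snd_sub]; omega)
    obtain ⟨n, c2, -, r2, s2⟩ := ih (s + 2) c1 ⟨fun j a b => by
      rw [fr1 _ _ a, fr1 _ _ a]; exact h.1 j (by omega) (by push_cast; omega), fun x y a b d => by
      rw [fr1 _ _ (by omega), ← h.2 x y a b d]; congr 2; push_cast; ring⟩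
    obtain ⟨r3, g1, g2, g3⟩ := lift (Box 1 0 1) (s, 0) (c2, (s + 2 - 1, 1), (-1, 0))
      (fl, (1, 1), (-1, 0)) ⟨by simp; ring, rfl, two c2 fl fun i j => by
        rw [← e1, ← h3 _ (by simp only [Box]; omega)]
        simpa using r2.frame (i.val + s, j.val) (by simp only; omega)⟩ 4 (by decide +kernel)
    have e' : (T^[4] (fl, (1, 1), (-1, 0))).2 = ((-1, 1), (-1, 0)) := by decide +kernel
    have e2 : ∀ i : Fin 2, (T^[4] (fl, (1, 1), (-1, 0))).1 (i.val, 0) = 0 ∧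
        (T^[4] (fl, (1, 1), (-1, 0))).1 (i.val, 1) = 1 := by decide +kernel
    rw [e'] at g1 g2
    have fr' := r3.frame
    generalize T^[4] (c2, (s + 2 - 1, 1), (-1, 0)) = C at *
    obtain ⟨c3, p, q⟩ := C
    obtain rfl : p = (s - 1, 1) := g1.trans (by simp; ring)
    obtain rfl : q = (-1, 0) := g2
    have fr3 : ∀ x y, s + 2 ≤ x → c3 (x, y) = c2 (x, y) := fun x y g =>
      fr' _ (by simp only [Box, Prod.fst_sub, Prod.snd_sub]; omega)
    refine ⟨4 + (n + 4), c3, by omega, ((r.mono fun x hx => ?_).trans (r2.mono fun x hx => ?_)).trans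
      (r3.mono fun x hx => ?_), fun j h4 h5 => ?_, fun x y a b d => ?_⟩
    · simp only [Box, Prod.fst_sub, Prod.snd_sub] at hx; omega
    · omega
    · simp only [Box, Prod.fst_sub, Prod.snd_sub] at hx; omega
    · by_cases g : s + 2 ≤ j
      · rw [fr3 _ _ g, fr3 _ _ g]; exact s2.1 j g (by push_cast at h5 ⊢; omega)
      · obtain ⟨i, rfl⟩ : ∃ i : Fin 2, j = i.val + s := ⟨⟨(j - s).toNat, by omega⟩, by simp; omega⟩
        have a0 := g3 (i.val, 0) (by simp only [Box]; omega)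
        have a1 := g3 (i.val, 1) (by simp only [Box]; omega)
        rw [(e2 i).1] at a0
        rw [(e2 i).2] at a1
        exact ⟨by simpa using a0, by simpa using a1⟩
    · rw [fr3 _ _ (by omega), ← s2.2 x y a b d]; congr 2; push_cast; ring

def ρ (p : ℤ × ℤ) : ℤ × ℤ := (-1 - p.1, 1 - p.2)

theorem ρρ (p : ℤ × ℤ) : ρ (ρ p) = p := by simp [ρ]

def rot (C : Cfg 1) : Cfg 1 := (C.1 ∘ ρ, ρ C.2.1, -C.2.2)

theorem rot_T (C : Cfg 1) : T (rot C) = rot (T C) := by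
  obtain ⟨c, ⟨x, y⟩, ⟨a, b⟩⟩ := C
  simp only [T, step, rot, Function.comp_apply, ρρ]
  refine Prod.ext (funext fun z => ?_) ?_
  · by_cases e : z = ρ (x, y)
    · simp [e, ρρ]
    · have : ρ z ≠ (x, y) := fun g => e (by rw [← g, ρρ])
      simp [Function.update_of_ne e, Function.update_of_ne this]
  · split_ifs <;> simp [ρ] <;> constructor <;> ring

theorem rot_it (C : Cfg 1) (n : ℕ) : T^[n] (rot C) = rot (T^[n] C) :=
  (Function.Semiconj.iterate_right (f := rot) (ga := T) (gb := T) (fun C => (rot_T C).symm) n C).symm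

def Good (c : ℤ × ℤ → Fin 2) : Prop := (∃ k, St k 0 c) ∧ ∃ k, St k 0 (c ∘ ρ)

theorem half (c : ℤ × ℤ → Fin 2) (h : Good c) : ∃ n c', 0 < n ∧
    Run (c, (0, 0), (1, 0)) n (fun x => -2 ≤ x.2 ∧ x.2 ≤ 3) (rot (c', (0, 0), (1, 0))) ∧ Good c' := by
  obtain ⟨⟨k, h1⟩, l, h2⟩ := h
  obtain ⟨n, c', n0, r, s⟩ := exc k 0 c h1
  have e : (c' ∘ ρ) ∘ ρ = c' := funext fun x => congrArg c' (ρρ x)
  have fr : ∀ x y : ℤ, 0 ≤ x → (c' ∘ ρ) (x, y) = (c ∘ ρ) (x, y) := fun x y g =>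
    r.frame _ (by simp only [ρ]; omega)
  refine ⟨n, c' ∘ ρ, n0, ?_, ⟨l, fun j a b => ?_, fun x y a b d => ?_⟩, k + 1, by rwa [e]⟩
  · rw [rot, e]; exact r.mono fun x hx => by omega
  · rw [fr _ _ a, fr _ _ a]; exact h2.1 j a b
  · rw [fr _ _ (by omega)]; exact h2.2 x y a b d

theorem full (c : ℤ × ℤ → Fin 2) (h : Good c) : ∃ n c', 0 < n ∧
    Run (c, (0, 0), (1, 0)) n (fun x => -2 ≤ x.2 ∧ x.2 ≤ 3) (c', (0, 0), (1, 0)) ∧ Good c' := by
  obtain ⟨n, c1, n0, r, g⟩ := half c h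
  obtain ⟨m, c2, -, r', g'⟩ := half c1 g
  refine ⟨m + n, c2, by omega, r.trans ⟨?_, fun t ht => ?_⟩, g'⟩
  · rw [rot_it, r'.1]
    exact Prod.ext (funext fun x => congrArg c2 (ρρ x)) rfl
  · have := r'.2 t ht
    rw [rot_it]
    simp only [rot, ρ]
    omega

def c0 (p : ℤ × ℤ) : Fin 2 := if 0 ≤ p.1 then F p else F (ρ p)

theorem good0 : Good c0 := by
  refine ⟨⟨0, fun j a b => by omega, fun x y a _ _ => by simp [c0, a]⟩,
    0, fun j a b => by omega, fun x y a _ _ => ?_⟩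
  simp only [Function.comp_apply, c0, ρρ]
  rw [if_neg (by simp only [ρ]; omega)]
  simp

theorem long (N : ℕ) : ∃ n c', N ≤ n ∧
    Run (c0, (0, 0), (1, 0)) n (fun x => -2 ≤ x.2 ∧ x.2 ≤ 3) (c', (0, 0), (1, 0)) ∧ Good c' := by
  induction N with
  | zero => exact ⟨0, c0, le_rfl, ⟨rfl, by simp⟩, good0⟩
  | succ N ih =>
    obtain ⟨n, c, h, r, g⟩ := ih
    obtain ⟨m, c', m0, r', g'⟩ := full c g
    exact ⟨m + n, c', by omega, r.trans r', g'⟩

/-- A non-trivial ant and a configuration whose set of recurrent cells is neither empty nor the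
whole plane. -/
theorem result : ∃ (m : ℕ) (w : Fin (m + 1) → Bool) (C : Cfg m),
    (∃ k, w k = true) ∧ (∃ k, w k = false) ∧
    C.2.2 ∈ ({(0, 1), (1, 0), (0, -1), (-1, 0)} : Set (ℤ × ℤ)) ∧
    Rec w C ≠ ∅ ∧ Rec w C ≠ Set.univ := by
  refine ⟨1, fun k => k.val == 1, (c0, (0, 0), (1, 0)), ⟨1, rfl⟩, ⟨0, rfl⟩, by simp,
    Set.Nonempty.ne_empty ⟨(0, 0), Set.infinite_of_not_bddAbove ?_⟩, fun h => ?_⟩
  · rintro ⟨N, hN⟩
    obtain ⟨n, c, h, r, -⟩ := long (N + 1)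
    have : n ≤ N := hN (congrArg (fun C : Cfg 1 => C.2.1) r.1)
    omega
  · obtain ⟨t, ht⟩ := Set.Infinite.nonempty (h ▸ Set.mem_univ ((0, 4) : ℤ × ℤ) :
      ((0, 4) : ℤ × ℤ) ∈ Rec _ _)
    obtain ⟨n, c, g, r, -⟩ := long (t + 1)
    have := r.2 t g
    rw [show (T^[t] (c0, (0, 0), (1, 0))).2.1 = (0, 4) from ht] at this
    simp at this

end Pool.Agent.Results.MP_d11917_an.Strip
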